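import Pool.Agent.H449R2.Fl.W5Fin

set_option autoImplicit false

open Finset

namespace Pool.Agent.Results.MP_a4d830_co.CodegreeGap

/-- The codegree of `a` and `b`: the number of vertices `c` such that `{a, b, c}` is an edge. -/
def codeg {n : ℕ} (H : Finset (Finset (Fin n))) (a b : Fin n) : ℕ :=
  (univ.filter fun c => ({a, b, c} : Finset (Fin n)) ∈ H).card

/-- The number of ordered pairs `(c, d)` such that `{a, b, c}`, `{a, b, d}` and `{a, c, d}` are
edges and `{b, c, d}` is not an edge. -/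
def mixed {n : ℕ} (H : Finset (Finset (Fin n))) (a b : Fin n) : ℕ :=
  ((univ : Finset (Fin n × Fin n)).filter fun p =>
    ({a, b, p.1} : Finset (Fin n)) ∈ H ∧ ({a, b, p.2} : Finset (Fin n)) ∈ H ∧
      ({a, p.1, p.2} : Finset (Fin n)) ∈ H ∧ ({b, p.1, p.2} : Finset (Fin n)) ∉ H).card

/-- The number of copies of `K_5^3`: five-element sets of vertices all of whose triples are
edges. -/
def cliques5 {n : ℕ} (H : Finset (Finset (Fin n))) : ℕ :=
  (((univ : Finset (Fin n)).powersetCard 5).filter fun S => S.powersetCard 3 ⊆ H).card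

open Pool.Agent.H449R2.Fl

theorem dg_eq {n : ℕ} (H : Finset (Finset (Fin n))) (a b : Fin n) :
    W5.dg (ind H) a b = codeg H a b := by
  unfold W5.dg ind codeg
  rw [card_filter]
  push_cast
  rfl

theorem sg7 {n : ℕ} {H : Finset (Finset (Fin n))} (a b c d : Fin n) :
    sg (ind H) a b c d = 7 ↔ (({a, b, c} : Finset (Fin n)) ∈ H ∧
      ({a, b, d} : Finset (Fin n)) ∈ H ∧ ({a, c, d} : Finset (Fin n)) ∈ H ∧
      ({b, c, d} : Finset (Fin n)) ∉ H) := by
  unfold sg ind
  simp only [Nat.add_eq, Nat.mul_eq]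
  split_ifs <;> simp_all

theorem mx_eq {n : ℕ} {H : Finset (Finset (Fin n))} (a b : Fin n) :
    W5.mx (ind H) a b = mixed H a b := by
  unfold W5.mx mixed
  rw [card_filter, Fintype.sum_prod_type]
  push_cast
  refine sum_congr rfl fun c _ => sum_congr rfl fun d _ => ?_
  by_cases h : sg (ind H) a b c d = 7
  · rw [if_pos h, if_pos ((sg7 a b c d).mp h)]
  · rw [if_neg h, if_neg fun h' => h ((sg7 a b c d).mpr h')]

theorem N5_eq {n : ℕ} {H : Finset (Finset (Fin n))} (h3 : ∀ s ∈ H, s.card = 3) :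
    N5 H 10 = cliques5 H := by
  unfold N5 cliques5
  congr 1
  ext S
  simp only [mem_filter, mem_univ, true_and, mem_powersetCard, subset_univ]
  constructor
  · rintro ⟨h5, h10⟩
    refine ⟨h5, ?_⟩
    have h1 : (H.filter fun t => t ⊆ S) ⊆ S.powersetCard 3 := by
      intro t ht
      rw [mem_filter] at ht
      exact mem_powersetCard.mpr ⟨ht.2, h3 t ht.1⟩
    have h2 : (H.filter fun t => t ⊆ S) = S.powersetCard 3 := by
      refine eq_of_subset_of_card_le h1 ?_
      rw [h10, card_powersetCard, h5]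
      decide
    rw [← h2]
    exact filter_subset _ _
  · rintro ⟨h5, hsub⟩
    refine ⟨h5, ?_⟩
    have h2 : (H.filter fun t => t ⊆ S) = S.powersetCard 3 := by
      ext t
      rw [mem_filter, mem_powersetCard]
      exact ⟨fun h => ⟨h.2, h3 t h.1⟩, fun h => ⟨hsub (mem_powersetCard.mpr h), h.1⟩⟩
    rw [h2, card_powersetCard, h5]
    decide

theorem codeg_comm {n : ℕ} (H : Finset (Finset (Fin n))) (a b : Fin n) :
    codeg H a b = codeg H b a := by
  unfold codeg
  simp only [Finset.insert_comm a b]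

theorem codeg_le {n : ℕ} (H : Finset (Finset (Fin n))) (a b : Fin n) : codeg H a b ≤ n := by
  unfold codeg
  exact (card_filter_le _ _).trans (by simp)

theorem mixed_add {n : ℕ} (H : Finset (Finset (Fin n))) (a b : Fin n) :
    mixed H a b + mixed H b a ≤ codeg H a b ^ 2 := by
  unfold mixed codeg
  rw [← card_union_of_disjoint]
  · rw [sq, ← card_product]
    refine card_le_card ?_
    rintro ⟨c, d⟩ h
    simp only [mem_union, mem_filter, mem_univ, true_and, mem_product] at h ⊢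
    rcases h with h | h
    · exact ⟨h.1, h.2.1⟩
    · rw [Finset.insert_comm a b, Finset.insert_comm a b]
      exact ⟨h.1, h.2.1⟩
  · rw [disjoint_left]
    rintro ⟨c, d⟩ h1 h2
    simp only [mem_filter, mem_univ, true_and] at h1 h2
    exact h1.2.2.2 h2.2.2.1

theorem part1 {n : ℕ} {H : Finset (Finset (Fin n))} (h3 : ∀ s ∈ H, s.card = 3) :
    24 * (n : ℤ) ^ 3 * (H.card : ℤ) ≤
      3 * (n : ℤ) ^ 6 + 1920 * (n : ℤ) * (cliques5 H : ℤ) +
      16 * ∑ a, ∑ b, (mixed H a b : ℤ) * (((n : ℤ) - codeg H a b) *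
        (3 * codeg H a b - 2 * (n : ℤ))) := by
  have h := W5.main h3
  simp only [Fintype.card_fin, dg_eq, mx_eq, N5_eq h3] at h
  exact h

theorem part2 {n : ℕ} {H : Finset (Finset (Fin n))} (h3 : ∀ s ∈ H, s.card = 3) :
    24 * n ^ 2 * H.card ≤ 3 * n ^ 5 + 1920 * cliques5 H +
      8 * n ^ 2 * ∑ a, ∑ b, (if 2 * n < 3 * codeg H a b then n - codeg H a b else 0) := by
  have h1 := part1 h3
  set f : Fin n → Fin n → ℤ := fun a b => ((n : ℤ) - codeg H a b) *
        (3 * codeg H a b - 2 * (n : ℤ)) with hf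
  have hsym : ∀ a b, f a b = f b a := fun a b => by
    simp only [hf, codeg_comm H a b]
  have h2 : 2 * ∑ a, ∑ b, (mixed H a b : ℤ) * f a b =
      ∑ a, ∑ b, ((mixed H a b : ℤ) + (mixed H b a : ℤ)) * f a b := by
    have h4 : ∑ a, ∑ b, (mixed H a b : ℤ) * f a b = ∑ a, ∑ b, (mixed H b a : ℤ) * f a b := by
      rw [sum_comm]
      exact sum_congr rfl fun a _ => sum_congr rfl fun b _ => by rw [hsym]
    simp only [add_mul, sum_add_distrib]
    rw [← h4]
    ring
  have h5 : ∀ a b, ((mixed H a b : ℤ) + (mixed H b a : ℤ)) * f a b ≤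
      (n : ℤ) ^ 3 * ((if 2 * n < 3 * codeg H a b then n - codeg H a b else 0 : ℕ) : ℤ) := by
    intro a b
    have hc : (codeg H a b : ℤ) ≤ n := by exact_mod_cast codeg_le H a b
    have hc0 : (0 : ℤ) ≤ codeg H a b := by positivity
    have hm0 : (0 : ℤ) ≤ (mixed H a b : ℤ) + (mixed H b a : ℤ) := by positivity
    have hm : (mixed H a b : ℤ) + (mixed H b a : ℤ) ≤ (codeg H a b : ℤ) ^ 2 := by
      exact_mod_cast mixed_add H a b
    split_ifs with h
    · have h' : (2 * (n : ℤ)) < 3 * codeg H a b := by exact_mod_cast h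
      rw [Nat.cast_sub (codeg_le H a b)]
      have h6 : f a b ≤ ((n : ℤ) - codeg H a b) * n :=
        mul_le_mul_of_nonneg_left (by linarith) (by linarith)
      have h7 : 0 ≤ ((n : ℤ) - codeg H a b) * n := mul_nonneg (by linarith) (by linarith)
      have h8 : (codeg H a b : ℤ) ^ 2 ≤ (n : ℤ) ^ 2 := pow_le_pow_left₀ hc0 hc 2
      calc ((mixed H a b : ℤ) + (mixed H b a : ℤ)) * f a b
          ≤ ((mixed H a b : ℤ) + (mixed H b a : ℤ)) * (((n : ℤ) - codeg H a b) * n) :=
            mul_le_mul_of_nonneg_left h6 hm0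
        _ ≤ (n : ℤ) ^ 2 * (((n : ℤ) - codeg H a b) * n) :=
            mul_le_mul_of_nonneg_right (hm.trans h8) h7
        _ = (n : ℤ) ^ 3 * ((n : ℤ) - codeg H a b) := by ring
    · have h' : 3 * (codeg H a b : ℤ) ≤ 2 * (n : ℤ) := by exact_mod_cast (not_lt.mp h)
      have h6 : f a b ≤ 0 := mul_nonpos_of_nonneg_of_nonpos (by linarith) (by linarith)
      have h7 := mul_nonpos_of_nonneg_of_nonpos hm0 h6
      simpa using h7
  have h6 := sum_le_sum fun a (_ : a ∈ (univ : Finset (Fin n))) =>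
    sum_le_sum fun b (_ : b ∈ (univ : Finset (Fin n))) => h5 a b
  simp only [← mul_sum] at h6
  rcases Nat.eq_zero_or_pos n with h0 | h0
  · subst h0
    simp
  have hz : (0 : ℤ) < (n : ℤ) := by exact_mod_cast h0
  have h7 : (n : ℤ) * (24 * (n : ℤ) ^ 2 * H.card) ≤ (n : ℤ) * (3 * (n : ℤ) ^ 5 +
      1920 * cliques5 H + 8 * (n : ℤ) ^ 2 *
        ∑ a, ∑ b, ((if 2 * n < 3 * codeg H a b then n - codeg H a b else 0 : ℕ) : ℤ)) := by
    linarith
  exact_mod_cast le_of_mul_le_mul_left h7 hz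

/-- Let `H` be a 3-graph on `n` vertices, with codegrees `d(a,b) = codeg H a b`.

* `24 n³ |H| ≤ 3 n⁶ + 1920 n K₅(H) + 16 ∑ mixed(a,b) (n - d(a,b)) (3 d(a,b) - 2 n)`, the sum over
  all ordered pairs.
* `24 n² |H| ≤ 3 n⁵ + 1920 K₅(H) + 8 n² ∑ (n - d(a,b))`, the sum over the ordered pairs `(a,b)`
  with `3 d(a,b) > 2 n`.
* If `H` is `K_5^3`-free and every two distinct vertices `a, b` satisfy `d(a,b) ≤ 2n/3` or
  `d(a,b) ≥ n - k`, then `24 |H| ≤ 3 n³ + 8 k n²`. -/
theorem result (n : ℕ) (H : Finset (Finset (Fin n))) (h3 : ∀ t ∈ H, t.card = 3) :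
    (24 * (n : ℤ) ^ 3 * (H.card : ℤ) ≤
      3 * (n : ℤ) ^ 6 + 1920 * (n : ℤ) * (cliques5 H : ℤ) +
      16 * ∑ a, ∑ b, (mixed H a b : ℤ) * (((n : ℤ) - codeg H a b) *
        (3 * codeg H a b - 2 * (n : ℤ)))) ∧
    (24 * n ^ 2 * H.card ≤ 3 * n ^ 5 + 1920 * cliques5 H +
      8 * n ^ 2 * ∑ a, ∑ b, (if 2 * n < 3 * codeg H a b then n - codeg H a b else 0)) ∧
    (∀ k : ℕ, (∀ S : Finset (Fin n), S.card = 5 → ∃ t ⊆ S, t.card = 3 ∧ t ∉ H) →
      (∀ a b : Fin n, a ≠ b → 3 * codeg H a b ≤ 2 * n ∨ n ≤ codeg H a b + k) →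
      24 * H.card ≤ 3 * n ^ 3 + 8 * k * n ^ 2) := by
  refine ⟨part1 h3, part2 h3, ?_⟩
  intro k hK hw
  have h1 := part2 h3
  have h2 : cliques5 H = 0 := by
    unfold cliques5
    rw [card_eq_zero, filter_eq_empty_iff]
    intro S hS hsub
    rw [mem_powersetCard] at hS
    obtain ⟨t, htS, ht3, htH⟩ := hK S hS.2
    exact htH (hsub (mem_powersetCard.mpr ⟨htS, ht3⟩))
  have h4 : ∀ a b : Fin n, (if 2 * n < 3 * codeg H a b then n - codeg H a b else 0) ≤ k := by
    intro a b
    split_ifs with h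
    · by_cases hab : a = b
      · exfalso
        subst hab
        have h5 : codeg H a a = 0 := by
          unfold codeg
          rw [card_eq_zero, filter_eq_empty_iff]
          intro c _ hc
          have h6 := h3 _ hc
          rw [Finset.insert_eq_of_mem (Finset.mem_insert_self a {c})] at h6
          have h7 := Finset.card_le_two (a := a) (b := c)
          omega
        rw [h5] at h
        omega
      · rcases hw a b hab with h5 | h5
        · omega
        · omega
    · exact Nat.zero_le _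
  have h5 : ∑ a : Fin n, ∑ b : Fin n,
      (if 2 * n < 3 * codeg H a b then n - codeg H a b else 0) ≤ n ^ 2 * k := by
    calc _ ≤ ∑ _a : Fin n, ∑ _b : Fin n, k :=
          sum_le_sum fun a _ => sum_le_sum fun b _ => h4 a b
      _ = n ^ 2 * k := by
          simp only [sum_const, card_univ, Fintype.card_fin, smul_eq_mul]
          ring
  rcases Nat.eq_zero_or_pos n with h0 | h0
  · subst h0
    have h6 : H = ∅ := by
      rw [eq_empty_iff_forall_notMem]
      intro t ht
      have h7 := h3 t ht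
      have h8 := card_le_univ t
      rw [Fintype.card_fin] at h8
      omega
    rw [h6]
    simp
  rw [h2] at h1
  have h6 := Nat.mul_le_mul_left (8 * n ^ 2) h5
  have h7 : n ^ 2 * (24 * H.card) ≤ n ^ 2 * (3 * n ^ 3 + 8 * k * n ^ 2) := by
    calc n ^ 2 * (24 * H.card) = 24 * n ^ 2 * H.card := by ring
      _ ≤ _ := h1
      _ ≤ 3 * n ^ 5 + 1920 * 0 + 8 * n ^ 2 * (n ^ 2 * k) := by omega
      _ = n ^ 2 * (3 * n ^ 3 + 8 * k * n ^ 2) := by ring
  exact Nat.le_of_mul_le_mul_left h7 (by positivity)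

end Pool.Agent.Results.MP_a4d830_co.CodegreeGap
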