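import Pool.Agent.H122R2.K5.Lp5
import Pool.Agent.H122R2.K5.Lower5

/-!
# The `ℓ_p`-version of the Turán problem for `K_5^3`, for all `p ≥ 2`

For every real `p ≥ 2` and every `K_5^3`-free 3-graph `G` on `n` vertices, the sum of the `p`-th
powers of the codegrees of the pairs of vertices is at most `(1 + 2^(-p)) / 4 * n^(p+2)`, and this
constant is attained asymptotically by the triples that meet both parts of a bipartition.
-/

set_option autoImplicit false
open Finset
open scoped Classical

namespace Pool.Agent.Results.MP_a4d830_co.CodegreePowersFive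

/-- The 3-graph `G` has no five vertices spanning all ten triples. -/
def K53Free {n : ℕ} (G : Finset (Finset (Fin n))) : Prop :=
  ∀ S : Finset (Fin n), S.card = 5 → ∃ s ⊆ S, s.card = 3 ∧ s ∉ G

/-- The number of edges of `G` containing `P`. -/
noncomputable def codegree {n : ℕ} (G : Finset (Finset (Fin n))) (P : Finset (Fin n)) : ℕ :=
  (G.filter (P ⊆ ·)).card

/-- For real `p ≥ 2`, the sum of the `p`-th powers of the codegrees of a `K_5^3`-free 3-graph on
`n` vertices is at most `(1 + (1/2)^p) / 4 * n^(p+2)`, and the constant is best possible. -/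
theorem result (p : ℝ) (hp : 2 ≤ p) :
    (∀ (n : ℕ) (G : Finset (Finset (Fin n))), (∀ e ∈ G, e.card = 3) → K53Free G →
      ∑ P ∈ (univ : Finset (Fin n)).powersetCard 2, (codegree G P : ℝ) ^ p
        ≤ (1 + (1 / 2) ^ p) / 4 * (n : ℝ) ^ (p + 2)) ∧
    (∀ c : ℝ, c < (1 + (1 / 2) ^ p) / 4 → ∃ N : ℕ, ∀ m : ℕ, N ≤ m →
      ∃ G : Finset (Finset (Fin (2 * m))), (∀ e ∈ G, e.card = 3) ∧ K53Free G ∧
        c * ((2 * m : ℕ) : ℝ) ^ (p + 2)
          < ∑ P ∈ (univ : Finset (Fin (2 * m))).powersetCard 2, (codegree G P : ℝ) ^ p) := by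
  constructor
  · intro n G h3 hF
    have h := H122R2.N6.lp5_pairs h3 hF p hp
    rw [Fintype.card_fin] at h
    have e : ∀ P, codegree G P = H122R2.N6.deg2 G P := fun P => by
      unfold codegree H122R2.N6.deg2
      congr!
    simp only [e]
    exact h
  · intro c hc
    obtain ⟨N, hN⟩ := H122R2.K5.sharp p (by linarith) c hc
    refine ⟨N, fun m hm => ⟨H122R2.K5.bip (2 * m) m, H122R2.K5.bip_card _ _, ?_, hN m hm⟩⟩
    intro S hS
    exact H122R2.K5.bip_free _ _ S hS

end Pool.Agent.Results.MP_a4d830_co.CodegreePowersFive
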