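import Pool.Agent.H369R2.TD.Num
import Pool.Agent.H369R2.TD.Link

/-!
# `π(K_{r+1}^r) ≥ 1 - 2.081/(r+1)` for all sufficiently large `r`

The notions are those of `Pool.Agent.H120R2.CliqueDefs`.

Outline (determinant codes).  Give every vertex a random vector of `F_q^d`, `q` a prime with `d/q`
close to `y = 5.5`.  A `(d+1)`-set `S` of vertices carries a linear dependency `α`; let `Z` be the
set of zeros of `α` in `S`.  If `Z` is not empty, a Turán `(|Z|, |Z|-1)`-system (randomly permuted,
one for every support) contains `Z - v` for some `v` in `Z`, and we choose `S - v`, a set which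
knows `α` and `Z - v`.  The expected number of chosen sets in `S` is close to the mean of `c_N`, `N`
Poisson of mean `y` and `c_j = j t(j, j-1)`, and `S` contains no chosen set with probability close to
`exp(-y)`.  The sets without chosen subset are treated by splitting an `(r+1)`-set into its
`d₁ + 1` lowest and its `d₂ + 1` highest points and alternating independent rounds on both parts:
if the lowest part fails, the failure is seen by every `r`-subset that contains the lowest part.
This gives `D / (lam (1-P)) + D P / ((1-lam) (1-P))` with `D = 1.8308`, `P = 0.0040868` and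
`lam = 0.93991`.  The `c_j` are those of Turán (`j = 4`) and de Caen, Kreher and Wiseman
(`t(2s+1, 2s) ≤ 1/4 + 4^{-s}`).
-/

open Filter

namespace Pool.Agent.Results.MP_a4d830_co.DeterminantCode

open Pool.Agent.H120R2.Clique

/-- There is `r₀` such that for every `r ≥ r₀` the limit `π(K_{r+1}^r)` of `ex(n, K_{r+1}^r) / C(n,r)`
exists and `π(K_{r+1}^r) ≥ 1 - 2.081/(r+1)`. -/
theorem result : ∃ r₀ : ℕ, ∀ r : ℕ, r₀ ≤ r →
    Tendsto (fun n : ℕ => (ex n r (r + 1) : ℝ) / (n.choose r : ℝ)) atTop
      (nhds (turanDensity r (r + 1))) ∧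
    1 - 2.081 / ((r : ℝ) + 1) ≤ turanDensity r (r + 1) := by
  obtain ⟨r₀, h⟩ := eventually_atTop.mp Pool.Agent.H369R2.TD.tur_2081
  refine ⟨r₀, fun r hr => ⟨ratio_tendsto r (r + 1), ?_⟩⟩
  have := Pool.Agent.H369R2.TD.density_of_tur (h r hr)
  have e : (2.081 : ℝ) = 2081 / 1000 := by norm_num
  rw [e]
  exact this

end Pool.Agent.Results.MP_a4d830_co.DeterminantCode
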