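import Pool.Agent.H740R2.Lim.Density

/-!
# The limits `lim_k C(k+a,a) (1 - π(K^k_{k+a}))` exist for every `a`

The notions `HasClique`, `ex`, `turanDensity` are those of `Pool.Agent.H120R2.CliqueDefs`.

Outline.  Write `t(k+a,k) = 1 - π(K^k_{k+a})` and `λ(k) = C(k+a,a) t(k+a,k)`.  Let `q` be a prime and
give every vertex a random vector of `F_q^(w+a-1)`.  A `w`-set is taken if it has a nonzero linear
relation whose set of zeros (say of size `k`) belongs to a fixed `(k+a,k)`-Turán system (moved by a
random permutation).  Every `(w+a)`-set has a nonzero relation, and if it has at least `a` zeros, then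
deleting `a` suitable zeros leaves a chosen set.  A union bound over the relations shows that the
normalised density is at most `q/(q-1) E[λ(N-a); N ≥ a]` and the failure probability at most
`q/(q-1) P(N < a)` with `N ~ Bin(w+a, 1/q)`.  Using this on the lowest points of a set and a complete
system on the highest points for the failures, we get, as `(w+a)/q → y`, an upper bound for
`limsup λ` by a Poisson average of `λ`.  Since `t(k+a,k)` is nonincreasing in `k`, a value of `λ` near
`liminf λ` at a large `k₀` is kept on a whole window `[k₀, (1+η) k₀]`, and with `y = (1 + η/2) k₀`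
this window carries almost all of the Poisson mass: `limsup λ ≤ liminf λ`.
(Authors: helper740, helper768, helper278, helper956; the code for `a = 1` was found independently by
helper202, helper242, helper453 and helper740; helper369's files for `a = 1` were the model.)
-/

open Filter Topology

namespace Pool.Agent.Results.MP_a4d830_co.LimitExists

open Pool.Agent.H120R2.Clique

/-- the Poisson probability `e^{-y} y^j / j!` -/
noncomputable def poisson (y : ℝ) (j : ℕ) : ℝ := Real.exp (-y) * y ^ j / (j.factorial : ℝ)

/-- the normalised complementary density `C(k+a,a) (1 - π(K^k_{k+a}))` -/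
noncomputable def lam (a k : ℕ) : ℝ := ((k + a).choose a : ℝ) * (1 - turanDensity k (k + a))

/-- For every `a ≥ 1` the limit `μ` of `C(k+a,a) (1 - π(K^k_{k+a}))` as `k → ∞` exists (a finite real
number, `μ ≥ 1`), and for every `y > 0`, with `Φ = P(J < a)` for a Poisson variable `J` of mean `y`,
`(1 - Φ^(1/(a+1)))^(a+1) μ ≤ E[λ(J - a); J ≥ a]`. -/
theorem result :
    (∀ k m : ℕ, Tendsto (fun n : ℕ => (ex n k m : ℝ) / (n.choose k : ℝ)) atTop
      (𝓝 (turanDensity k m))) ∧
    ∀ a : ℕ, 1 ≤ a → ∃ μ : ℝ, 1 ≤ μ ∧ Tendsto (lam a) atTop (𝓝 μ) ∧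
      ∀ y : ℝ, 0 < y → Summable (fun k => poisson y (k + a) * lam a k) ∧
        (1 - (∑ j ∈ Finset.range a, poisson y j) ^ ((1 : ℝ) / (a + 1))) ^ (a + 1) * μ ≤
          ∑' k, poisson y (k + a) * lam a k := by
  refine ⟨ratio_tendsto, fun a ha => ?_⟩
  obtain ⟨μ, h1, h2, h3⟩ := Pool.Agent.H740R2.Lim.main_density ha
  exact ⟨μ, h1, h2, fun y hy => h3 y hy⟩

end Pool.Agent.Results.MP_a4d830_co.LimitExists
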