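import Pool.Agent.H252R2.TD.Turan

set_option autoImplicit false

/-!
# A lower bound `t(r+1,r) ≥ 1/r + c/r^3` for every `r ≥ 3`
(Author: helper252.)
-/

namespace Pool.Agent.Results.MP_a4d830_co.SuccessorLower
open Finset Filter Topology Asymptotics
open Pool.Agent.H252R2.TD

/-- `G` is a `K_m^r`-free `r`-graph on `n` vertices -/
def IsFree (n m r : ℕ) (G : Finset (Finset (Fin n))) : Prop :=
  (∀ e ∈ G, e.card = r) ∧
    ¬ ∃ S : Finset (Fin n), S.card = m ∧ ∀ e : Finset (Fin n), e ⊆ S → e.card = r → e ∈ G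

/-- the Turán function `ex(n, K_m^r)` -/
noncomputable def ex (n m r : ℕ) : ℕ := sSup {c | ∃ G, IsFree n m r G ∧ G.card = c}

/-- `π` is the Turán density of `K_m^r` -/
def IsTuranDensity (m r : ℕ) (π : ℝ) : Prop :=
  Tendsto (fun n : ℕ => (ex n m r : ℝ) / (n.choose r : ℝ)) atTop (nhds π)

theorem ex_attained {n m r : ℕ} (hrm : r < m) : ∃ G, IsFree n m r G ∧ G.card = ex n m r := by
  have hne : {c | ∃ G, IsFree n m r G ∧ G.card = c}.Nonempty := by
    refine ⟨0, ∅, ⟨by simp, ?_⟩, by simp⟩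
    rintro ⟨S, hS, h⟩
    obtain ⟨e, he1, he2⟩ := Finset.exists_subset_card_eq (n := r) (s := S) (by omega)
    exact absurd (h e he1 he2) (by simp)
  have hbdd : BddAbove {c | ∃ G, IsFree n m r G ∧ G.card = c} := by
    refine ⟨Fintype.card (Finset (Fin n)), ?_⟩
    rintro c ⟨G, _, rfl⟩
    exact Finset.card_le_univ G
  exact Nat.sSup_mem hne hbdd

/-- the density of the complement, in the normalisation by ordered tuples -/
noncomputable def tn (n r : ℕ) : ℝ :=
  1 - (ex n (r + 1) r : ℝ) * ((r.factorial : ℝ) / (n : ℝ) ^ r)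

theorem tn_props {n r : ℕ} (hn : 0 < n) (hr : 3 ≤ r) :
    (1 / (r : ℝ) + 1 / (13 * (r : ℝ) ^ 3) ≤ tn n r) ∧
    (((r : ℝ) - 1) * (tn n r ^ 3 * (1 - tn n r) ^ 2) ≤
      4 * (1 + tn n r) * (((r : ℝ) * tn n r - 1) * (1 - tn n r))) := by
  haveI : NeZero n := ⟨hn.ne'⟩
  haveI : Nonempty (Fin n) := ⟨0⟩
  obtain ⟨G, hG, hcard⟩ := ex_attained (n := n) (m := r + 1) (r := r) (by omega)
  obtain ⟨k, rfl⟩ : ∃ k, r = k + 3 := ⟨r - 3, by omega⟩
  have hE := E_gG (r := k + 3) hG.1
  rw [hcard] at hE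
  have hee : ∀ M : Multiset (Fin n), M.card = k + 4 → 1 ≤ ee (gG G) M := fun M hM =>
    one_le_ee hr hG.2 M hM
  have h1 := main_explicit (V := Fin n) k (gG_ZO G) hee
  have ht : tn n (k + 3) = E (k + 3) (gG G) := hE.symm
  have hk : (0 : ℝ) ≤ k := Nat.cast_nonneg _
  have hpos : 0 < E (k + 3) (gG G) := by
    refine lt_of_lt_of_le ?_ h1
    positivity
  have h2 := main_ineq (V := Fin n) k (gG_ZO G) hee hpos
  rw [ht]
  push_cast
  refine ⟨h1, ?_⟩
  have e : (k : ℝ) + 3 - 1 = k + 2 := by ring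
  rw [e]
  exact h2

theorem tn_tendsto {r : ℕ} {π : ℝ} (h : IsTuranDensity (r + 1) r π) :
    Tendsto (fun n : ℕ => tn n r) atTop (nhds (1 - π)) := by
  have h1 : Tendsto (fun n : ℕ => (n.choose r : ℝ) / ((n : ℝ) ^ r / r.factorial)) atTop (nhds 1) := by
    have := isEquivalent_choose r
    rw [isEquivalent_iff_tendsto_one] at this
    · exact this
    · filter_upwards [eventually_gt_atTop 0] with n hn
      have : (0 : ℝ) < n := by exact_mod_cast hn
      positivity
  have h2 := (h.mul h1).const_sub 1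
  rw [mul_one] at h2
  refine h2.congr' ?_
  filter_upwards [eventually_ge_atTop (max r 1)] with n hn
  have hn1 : r ≤ n := le_trans (le_max_left _ _) hn
  have hn2 : 0 < n := lt_of_lt_of_le Nat.one_pos (le_trans (le_max_right _ _) hn)
  have hc : (n.choose r : ℝ) ≠ 0 := by exact_mod_cast (Nat.choose_pos hn1).ne'
  have hn3 : (n : ℝ) ≠ 0 := by exact_mod_cast hn2.ne'
  have hf : (r.factorial : ℝ) ≠ 0 := by exact_mod_cast r.factorial_ne_zero
  unfold tn
  field_simp

theorem result :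
    -- finite form
    (∀ r n : ℕ, 3 ≤ r → (ex n (r + 1) r : ℝ) ≤
      (1 - 1 / (r : ℝ) - 1 / (13 * (r : ℝ) ^ 3)) * ((n : ℝ) ^ r / r.factorial)) ∧
    -- Turán densities
    (∀ (r : ℕ) (π : ℝ), 3 ≤ r → IsTuranDensity (r + 1) r π →
      π ≤ 1 - 1 / (r : ℝ) - 1 / (13 * (r : ℝ) ^ 3)) ∧
    -- sharper implicit form, with `t = 1 - π`
    (∀ (r : ℕ) (π : ℝ), 3 ≤ r → IsTuranDensity (r + 1) r π → π ≠ 0 →
      ((r : ℝ) - 1) * ((1 - π) ^ 3 * π) ≤ 4 * (2 - π) * ((r : ℝ) * (1 - π) - 1)) := by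
  refine ⟨?_, ?_, ?_⟩
  · intro r n hr
    rcases Nat.eq_zero_or_pos n with hn | hn
    · subst hn
      have h0 : ex 0 (r + 1) r = 0 := by
        obtain ⟨G, hG, hcard⟩ := ex_attained (n := 0) (m := r + 1) (r := r) (by omega)
        rw [← hcard, Finset.card_eq_zero, Finset.eq_empty_iff_forall_notMem]
        intro e he
        have h1 := hG.1 e he
        have h2 : e.card ≤ 0 := by
          have := Finset.card_le_univ e
          simpa using this
        omega
      rw [h0]
      have : (0 : ℝ) ^ r = 0 := zero_pow (by omega)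
      simp [this]
    · have h := (tn_props hn hr).1
      unfold tn at h
      have hn3 : (0 : ℝ) < n := by exact_mod_cast hn
      have hf : (0 : ℝ) < r.factorial := by exact_mod_cast r.factorial_pos
      have hpos : (0 : ℝ) < (n : ℝ) ^ r / r.factorial := by positivity
      have e : (ex n (r + 1) r : ℝ) * ((r.factorial : ℝ) / (n : ℝ) ^ r) *
          ((n : ℝ) ^ r / r.factorial) = ex n (r + 1) r := by
        field_simp
      rw [← e]
      exact mul_le_mul_of_nonneg_right (by linarith) hpos.le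
  · intro r π hr hπ
    have h := ge_of_tendsto (tn_tendsto hπ) (b := 1 / (r : ℝ) + 1 / (13 * (r : ℝ) ^ 3)) (by
      filter_upwards [eventually_gt_atTop 0] with n hn
      exact (tn_props hn hr).1)
    linarith
  · intro r π hr hπ hne
    have ht := tn_tendsto hπ
    have hπ0 : 0 ≤ π := by
      refine ge_of_tendsto hπ ?_
      filter_upwards with n
      positivity
    have h := le_of_tendsto_of_tendsto
      (b := atTop)
      (f := fun n : ℕ => ((r : ℝ) - 1) * (tn n r ^ 3 * (1 - tn n r) ^ 2))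
      (g := fun n : ℕ => 4 * (1 + tn n r) * (((r : ℝ) * tn n r - 1) * (1 - tn n r)))
      (((ht.pow 3).mul ((ht.const_sub 1).pow 2)).const_mul _)
      (((ht.const_add 1).const_mul 4).mul (((ht.const_mul (r : ℝ)).sub_const 1).mul
        (ht.const_sub 1)))
      (by
        filter_upwards [eventually_gt_atTop 0] with n hn
        exact (tn_props hn hr).2)
    have hπp : 0 < π := lt_of_le_of_ne hπ0 (Ne.symm hne)
    have h' : π * (((r : ℝ) - 1) * ((1 - π) ^ 3 * π)) ≤
        π * (4 * (2 - π) * ((r : ℝ) * (1 - π) - 1)) := by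
      nlinarith [h]
    exact le_of_mul_le_mul_left h' hπp

end Pool.Agent.Results.MP_a4d830_co.SuccessorLower
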